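import Mathlib

set_option autoImplicit false

/-! Words and concatenations: the combinatorial filling lemma. -/

namespace Pool.Agent.H317R3

variable {α : Type}

/-- concatenations of words of `W` -/
def Star (W : Set (List α)) : Set (List α) :=
  {x | ∃ L : List (List α), (∀ w ∈ L, w ∈ W) ∧ x = L.flatten}

lemma star_nil (W : Set (List α)) : ([] : List α) ∈ Star W := ⟨[], by simp, by simp⟩

lemma star_of_mem {W : Set (List α)} {w : List α} (h : w ∈ W) : w ∈ Star W :=
  ⟨[w], by simpa using h, by simp⟩

lemma star_append {W : Set (List α)} {x y : List α} (hx : x ∈ Star W) (hy : y ∈ Star W) :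
    x ++ y ∈ Star W := by
  obtain ⟨L, hL, rfl⟩ := hx
  obtain ⟨M, hM, rfl⟩ := hy
  refine ⟨L ++ M, ?_, by simp⟩
  intro w hw
  rcases List.mem_append.1 hw with h | h
  · exact hL w h
  · exact hM w h

lemma star_subset {W V : Set (List α)} (h : V ⊆ Star W) : Star V ⊆ Star W := by
  rintro x ⟨L, hL, rfl⟩
  induction L with
  | nil => simpa using star_nil W
  | cons w L ih =>
    simp only [List.flatten_cons]
    apply star_append (h (hL w (by simp)))
    exact ih (fun v hv => hL v (by simp [hv]))

/-- `Fill W A H`: every length `n ≥ H` is the length of a concatenation of words of `W`, with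
prescribed letters at an `A`-sparse set of positions. -/
def Fill (W : Set (List α)) (A H : ℕ) : Prop :=
  ∀ n, H ≤ n → ∀ D : Set ℕ, (∀ d ∈ D, A ≤ d) → (∀ d ∈ D, ∀ d' ∈ D, d < d' → d + A < d') →
    ∀ s : ℕ → α, ∃ v ∈ Star W, v.length = n ∧ ∀ d ∈ D, d < n → v[d]? = some (s d)

/-- the next family of words -/
def nextW (W : Set (List α)) (u : List α) (N : ℕ) : Set (List α) :=
  {x | ∃ v ∈ Star W, x = u ++ v ∧ N ≤ v.length ∧ v.length ≤ 3 * N}

lemma fill_zero : Fill {x : List α | ∃ a : α, x = [a]} 0 0 := by
  intro n _ D _ _ s
  refine ⟨(List.range n).map s, ⟨(List.range n).map (fun i => [s i]), ?_, ?_⟩, by simp, ?_⟩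
  · intro w hw
    rw [List.mem_map] at hw
    obtain ⟨i, _, rfl⟩ := hw
    exact ⟨s i, rfl⟩
  · induction n with
    | zero => simp
    | succ n ih => simp [List.range_succ, ih]
  · intro d _ hdn
    simp [hdn]

lemma fill_step {W : Set (List α)} {A H N : ℕ} (hF : Fill W A H) (u : List α)
    (hNH : H ≤ N) (hN : 2 * u.length + A + 1 ≤ N) :
    Fill (nextW W u N) (u.length + A) (u.length + N) := by
  intro n
  induction n using Nat.strong_induction_on with
  | _ n ih =>
  intro hn D hD1 hD2 s
  by_cases h : n ≤ u.length + 3 * N
  · obtain ⟨v, hv, hvl, hvs⟩ := hF (n - u.length) (by omega) {d | d + u.length ∈ D}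
      (by
        intro d hd
        have := hD1 _ hd
        omega)
      (by
        intro d hd d' hd' hdd
        have := hD2 _ hd _ hd' (by omega)
        omega) (fun d => s (d + u.length))
    refine ⟨u ++ v, star_of_mem ⟨v, hv, rfl, by omega, by omega⟩, ?_, ?_⟩
    · rw [List.length_append]; omega
    · intro d hd hdn
      have h1 := hD1 d hd
      rw [List.getElem?_append_right (by omega)]
      have h2 : d - u.length + u.length = d := by omega
      have h3 := hvs (d - u.length) (by
        show d - u.length + u.length ∈ D
        rw [h2]; exact hd) (by omega)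
      rw [h3]
      simp only [h2]
  · obtain ⟨x, hx1, hx2, hx3⟩ : ∃ x, u.length + N ≤ x ∧ x ≤ u.length + N + (u.length + A) ∧
        ∀ d ∈ D, x ≤ d → x + (u.length + A) ≤ d := by
      by_cases hg : ∀ d ∈ D, u.length + N ≤ d → u.length + N + (u.length + A) ≤ d
      · exact ⟨u.length + N, le_rfl, by omega, hg⟩
      · push Not at hg
        obtain ⟨d, hd, h1, h2⟩ := hg
        refine ⟨d + 1, by omega, by omega, ?_⟩
        intro d' hd' hdd
        have := hD2 d hd d' hd' (by omega)
        omega
    obtain ⟨v, hv, hvl, hvs⟩ := hF (x - u.length) (by omega) {d | d + u.length ∈ D}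
      (by
        intro d hd
        have := hD1 _ hd
        omega)
      (by
        intro d hd d' hd' hdd
        have := hD2 _ hd _ hd' (by omega)
        omega) (fun d => s (d + u.length))
    obtain ⟨r, hr, hrl, hrs⟩ := ih (n - x) (by omega) (by omega) {d | d + x ∈ D}
      (by
        intro d hd
        have := hx3 _ hd (by omega)
        omega)
      (by
        intro d hd d' hd' hdd
        have := hD2 _ hd _ hd' (by omega)
        omega) (fun d => s (d + x))
    refine ⟨(u ++ v) ++ r, star_append (star_of_mem ⟨v, hv, rfl, by omega, by omega⟩) hr, ?_, ?_⟩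
    · rw [List.length_append, List.length_append]; omega
    · intro d hd hdn
      have h1 := hD1 d hd
      by_cases hdx : d < x
      · rw [List.getElem?_append_left (by rw [List.length_append]; omega),
          List.getElem?_append_right (by omega)]
        have h2 : d - u.length + u.length = d := by omega
        have h3 := hvs (d - u.length) (by
          show d - u.length + u.length ∈ D
          rw [h2]; exact hd) (by omega)
        rw [h3]
        simp only [h2]
      · have hl : (u ++ v).length = x := by rw [List.length_append]; omega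
        rw [List.getElem?_append_right (by omega), hl]
        have h2 : d - x + x = d := by omega
        have h3 := hrs (d - x) (by
          show d - x + x ∈ D
          rw [h2]; exact hd) (by omega)
        rw [h3]
        simp only [h2]

lemma trim_right {W : Set (List α)} {B : ℕ} (hW : ∀ w ∈ W, w.length ≤ B) (x : List α)
    (L : List (List α)) : (∀ w ∈ L, w ∈ W) → ∀ t : List α, x ++ t = L.flatten →
    ∃ t', x ++ t' ∈ Star W ∧ t'.length ≤ B := by
  induction L using List.reverseRecOn with
  | nil =>
    intro _ t h
    simp only [List.flatten_nil, List.append_eq_nil_iff] at h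
    refine ⟨[], ?_, by simp⟩
    rw [h.1]
    simpa using star_nil W
  | append_singleton L w ih =>
    intro hL t h
    have hLw : L.flatten ++ w = (L ++ [w]).flatten := by simp
    rw [← hLw, List.append_eq_append_iff] at h
    rcases h with ⟨l, h1, h2⟩ | ⟨l, h1, h2⟩
    · exact ih (fun v hv => hL v (by simp [hv])) l h1.symm
    · refine ⟨t, ?_, ?_⟩
      · refine ⟨L ++ [w], hL, ?_⟩
        rw [← hLw, h1, h2]
        simp
      · have := hW w (hL w (by simp))
        rw [h2, List.length_append] at this
        omega

lemma trim_left {W : Set (List α)} {B : ℕ} (hW : ∀ w ∈ W, w.length ≤ B) (x : List α)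
    (L : List (List α)) : (∀ w ∈ L, w ∈ W) → ∀ s : List α, s ++ x = L.flatten →
    ∃ s', s' ++ x ∈ Star W ∧ s'.length ≤ B := by
  induction L with
  | nil =>
    intro _ s h
    simp only [List.flatten_nil, List.append_eq_nil_iff] at h
    refine ⟨[], ?_, by simp⟩
    rw [h.2]
    simpa using star_nil W
  | cons w L ih =>
    intro hL s h
    rw [List.flatten_cons, List.append_eq_append_iff] at h
    rcases h with ⟨l, h1, h2⟩ | ⟨l, h1, h2⟩
    · refine ⟨s, ?_, ?_⟩
      · refine ⟨w :: L, hL, ?_⟩
        rw [List.flatten_cons, h1, h2]
        simp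
      · have := hW w (hL w (by simp))
        rw [h1, List.length_append] at this
        omega
    · exact ih (fun v hv => hL v (by simp [hv])) l h2.symm

lemma trim {W : Set (List α)} {B : ℕ} (hW : ∀ w ∈ W, w.length ≤ B) {x z : List α}
    (hz : z ∈ Star W) (hx : x <:+: z) :
    ∃ s t, s ++ x ++ t ∈ Star W ∧ s.length ≤ B ∧ t.length ≤ B := by
  obtain ⟨s, t, h⟩ := hx
  obtain ⟨L, hL, rfl⟩ := hz
  obtain ⟨t', ht', htl⟩ := trim_right hW (s ++ x) L hL t h
  obtain ⟨L', hL', h'⟩ := ht'
  obtain ⟨s', hs', hsl⟩ := trim_left hW (x ++ t') L' hL' s (by rw [← h']; simp)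
  exact ⟨s', t', by simpa using hs', hsl, htl⟩

lemma infix_full {W : Set (List α)} {B : ℕ} (hW : ∀ w ∈ W, w.length ≤ B) (x t : List α)
    (hx : 2 * B + 1 ≤ x.length) (L : List (List α)) : (∀ w ∈ L, w ∈ W) → ∀ s : List α,
    s ++ (x ++ t) = L.flatten → ∃ w ∈ W, w <:+: x := by
  induction L with
  | nil =>
    intro _ s h
    simp only [List.flatten_nil, List.append_eq_nil_iff] at h
    rw [h.2.1] at hx
    simp at hx
  | cons w L ih =>
    intro hL s h
    rw [List.flatten_cons, List.append_eq_append_iff] at h
    rcases h with ⟨l, h1, h2⟩ | ⟨l, h1, h2⟩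
    · have hl : l.length ≤ B := by
        have := hW w (hL w (by simp))
        rw [h1, List.length_append] at this
        omega
      rw [List.append_eq_append_iff] at h2
      rcases h2 with ⟨l', h3, h4⟩ | ⟨l', h3, h4⟩
      · exfalso
        rw [h3, List.length_append] at hl
        omega
      · have hl' : B + 1 ≤ l'.length := by
          rw [h3, List.length_append] at hx
          omega
        cases L with
        | nil =>
          simp only [List.flatten_nil] at h4
          have h5 := congrArg List.length h4
          simp only [List.length_nil, List.length_append] at h5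
          omega
        | cons w' L' =>
          rw [List.flatten_cons] at h4
          have hw' : w' ∈ W := hL w' (by simp)
          have h4' := h4.symm
          rw [List.append_eq_append_iff] at h4'
          rcases h4' with ⟨l2, h5, h6⟩ | ⟨l2, h5, h6⟩
          · exfalso
            have := hW w' hw'
            rw [h5, List.length_append] at this
            omega
          · refine ⟨w', hw', l, l2, ?_⟩
            rw [h3, h5]
            simp
    · exact ih (fun v hv => hL v (by simp [hv])) l h2.symm

lemma infix_full' {W : Set (List α)} {B : ℕ} (hW : ∀ w ∈ W, w.length ≤ B) {x z : List α}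
    (hx : 2 * B + 1 ≤ x.length) (hz : z ∈ Star W) (hxz : x <:+: z) : ∃ w ∈ W, w <:+: x := by
  obtain ⟨s, t, h⟩ := hxz
  obtain ⟨L, hL, rfl⟩ := hz
  exact infix_full hW x t hx L hL s (by rw [← h]; simp)

end Pool.Agent.H317R3
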