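import Mathlib
import Pool.Agent.H317R3.Words

set_option autoImplicit false

/-! The hierarchy of families of words. -/

namespace Pool.Agent.H317R3

variable {α : Type}

/-- data of one level -/
structure Lvl (α : Type) where
  W : Set (List α)
  A : ℕ
  H : ℕ
  B : ℕ
  E : ℕ
  u : List α
  m : ℕ
  E' : ℕ
  N : ℕ

structure Core (D : Set ℕ) (W : Set (List α)) (A H B E : ℕ) : Prop where
  ne : W.Nonempty
  bd : ∀ w ∈ W, w.length ≤ B
  fill : Fill W A H
  gap : ∀ d ∈ D, ∀ d' ∈ D, E ≤ d → d < d' → d + A < d'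
  free : ∀ d ∈ D, E ≤ d → E + A ≤ d

structure Good (D : Set ℕ) (P : Lvl α) : Prop where
  core : Core D P.W P.A P.H P.B P.E
  u_mem : P.u ∈ Star P.W
  u_inf : ∀ w ∈ P.W, w <:+: P.u
  Em : P.E ≤ P.m
  mfree : ∀ d ∈ D, P.m < d → P.m + P.B + P.A < d
  mE : P.m + P.B + P.H + 1 ≤ P.E'
  gap' : ∀ d ∈ D, ∀ d' ∈ D, P.E' ≤ d → d < d' → d + (P.u.length + P.A) < d'
  free' : ∀ d ∈ D, P.E' ≤ d → P.E' + (P.u.length + P.A) ≤ d
  N_ge : P.E' + P.m + P.B + 2 * P.H + 2 * P.u.length + P.A + 1 ≤ P.N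

/-- gaps of `D` tend to infinity -/
def GapsInf (D : Set ℕ) : Prop := ∀ A, ∃ T, ∀ d ∈ D, ∀ d' ∈ D, T ≤ d → d < d' → d + A < d'

lemma exists_cut {D : Set ℕ} (hD : GapsInf D) (A M : ℕ) :
    ∃ m, M ≤ m ∧ (∀ d ∈ D, m < d → m + A < d) ∧
      (∀ d ∈ D, ∀ d' ∈ D, m ≤ d → d < d' → d + A < d') := by
  obtain ⟨T, hT⟩ := hD A
  by_cases h : ∃ d ∈ D, max M T ≤ d
  · obtain ⟨d, hd, h1⟩ := h
    have h2 : M ≤ d := (le_max_left _ _).trans h1
    have h3 : T ≤ d := (le_max_right _ _).trans h1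
    exact ⟨d, h2, fun d' hd' h4 => hT d hd d' hd' h3 h4,
      fun e he e' he' h5 h6 => hT e he e' he' (h3.trans h5) h6⟩
  · push Not at h
    refine ⟨max M T, le_max_left _ _, ?_, ?_⟩
    · intro d hd h1
      have := h d hd
      omega
    · intro d hd d' _ h1
      have := h d hd
      omega

lemma exists_u [Finite α] {W : Set (List α)} {B : ℕ} (hW : ∀ w ∈ W, w.length ≤ B) :
    ∃ u ∈ Star W, ∀ w ∈ W, w <:+: u := by
  have hfin : W.Finite := (List.finite_length_le α B).subset hW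
  refine ⟨hfin.toFinset.toList.flatten, ⟨hfin.toFinset.toList, ?_, rfl⟩, ?_⟩
  · intro w hw
    simpa using hw
  · intro w hw
    apply List.infix_of_mem_flatten
    simpa using hw

lemma exists_good [Finite α] {D : Set ℕ} (hD : GapsInf D) {W : Set (List α)} {A H B E : ℕ}
    (h : Core D W A H B E) : ∃ P : Lvl α, Good D P ∧ P.W = W ∧ P.A = A ∧ P.H = H ∧ P.B = B ∧
      P.E = E := by
  obtain ⟨u, hu, hui⟩ := exists_u h.bd
  obtain ⟨m, hm1, hm2, -⟩ := exists_cut hD (B + A) E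
  obtain ⟨e, he1, he2, he3⟩ := exists_cut hD (u.length + A) (m + B + H + 1)
  refine ⟨⟨W, A, H, B, E, u, m, e + 1, e + 1 + m + B + 2 * H + 2 * u.length + A + 1⟩, ?_,
    rfl, rfl, rfl, rfl, rfl⟩
  refine ⟨h, hu, hui, hm1, ?_, ?_, ?_, ?_, ?_⟩
  · intro d hd h1
    have := hm2 d hd h1
    show m + B + A < d
    omega
  · show m + B + H + 1 ≤ e + 1
    omega
  · intro d hd d' hd' h1 h2
    exact he3 d hd d' hd' (by simp only at h1; omega) h2
  · intro d hd h1
    have := he2 d hd (by simp only at h1; omega)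
    show e + 1 + (u.length + A) ≤ d
    omega
  · exact le_rfl

lemma core_next [Inhabited α] {D : Set ℕ} {P : Lvl α} (h : Good D P) :
    Core D (nextW P.W P.u P.N) (P.u.length + P.A) (P.u.length + P.N) (P.u.length + 3 * P.N)
      P.E' := by
  have hN := h.N_ge
  refine ⟨?_, ?_, ?_, h.gap', h.free'⟩
  · obtain ⟨v, hv, hvl, -⟩ := h.core.fill P.N (by omega) ∅ (by simp) (by simp) (fun _ => default)
    exact ⟨P.u ++ v, v, hv, rfl, by omega, by omega⟩
  · rintro x ⟨v, hv, rfl, h1, h2⟩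
    rw [List.length_append]
    omega
  · exact fill_step h.core.fill P.u (by omega) (by omega)

/-- `Q` is a level following the level `P` -/
structure Next (P Q : Lvl α) : Prop where
  W : Q.W = nextW P.W P.u P.N
  A : Q.A = P.u.length + P.A
  H : Q.H = P.u.length + P.N
  B : Q.B = P.u.length + 3 * P.N
  E : Q.E = P.E'

lemma exists_next [Finite α] [Inhabited α] {D : Set ℕ} (hD : GapsInf D) {P : Lvl α}
    (h : Good D P) : ∃ Q, Good D Q ∧ Next P Q := by
  obtain ⟨Q, hQ, h1, h2, h3, h4, h5⟩ := exists_good hD (core_next h)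
  exact ⟨Q, hQ, h1, h2, h3, h4, h5⟩

lemma exists_first [Finite α] [Inhabited α] {D : Set ℕ} (hD : GapsInf D) :
    ∃ P : Lvl α, Good D P := by
  have h : Core D {x : List α | ∃ a : α, x = [a]} 0 0 1 0 := by
    refine ⟨⟨[default], default, rfl⟩, ?_, fill_zero, ?_, ?_⟩
    · rintro w ⟨a, rfl⟩
      simp
    · intro d _ d' _ _ h
      omega
    · intro d _ h
      omega
  obtain ⟨P, hP, _⟩ := exists_good hD h
  exact ⟨P, hP⟩

lemma exists_seq (α : Type) [Finite α] [Inhabited α] {D : Set ℕ} (hD : GapsInf D) :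
    ∃ P : ℕ → Lvl α, (∀ j, Good D (P j)) ∧ ∀ j, Next (P j) (P (j + 1)) := by
  classical
  choose f hf1 hf2 using fun (P : {P : Lvl α // Good D P}) => exists_next hD P.2
  obtain ⟨P0, hP0⟩ := exists_first (α := α) hD
  let Q : ℕ → {P : Lvl α // Good D P} := fun n => Nat.rec ⟨P0, hP0⟩ (fun _ P => ⟨f P, hf1 P⟩) n
  exact ⟨fun n => (Q n).1, fun n => (Q n).2, fun n => hf2 (Q n)⟩

section seq

variable {D : Set ℕ} {P : ℕ → Lvl α} (hG : ∀ j, Good D (P j)) (hN : ∀ j, Next (P j) (P (j + 1)))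

include hG hN

lemma m_lt (j : ℕ) : (P j).m + 1 ≤ (P (j + 1)).m := by
  have h1 := (hG j).mE
  have h2 := (hG (j + 1)).Em
  rw [(hN j).E] at h2
  omega

lemma m_mono {i j : ℕ} (h : i ≤ j) : (P i).m ≤ (P j).m := by
  induction h with
  | refl => exact le_rfl
  | @step j _ ih =>
    have := m_lt hG hN j
    show (P i).m ≤ (P (j + 1)).m
    omega

lemma m_ge (j : ℕ) : j ≤ (P j).m := by
  induction j with
  | zero => omega
  | succ j ih => have := m_lt hG hN j; omega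

omit hN in
lemma W_ne (j : ℕ) : (P j).W.Nonempty := (hG j).core.ne

omit hN in
lemma step_infix {j : ℕ} (hN : Next (P j) (P (j + 1))) (hne : (P (j + 1)).W.Nonempty)
    {w : List α} (hw : w ∈ (P j).W) : ∃ w' ∈ (P (j + 1)).W, w <:+: w' := by
  obtain ⟨x, hx⟩ := hne
  have hx' := hx
  rw [hN.W] at hx'
  obtain ⟨v, _, rfl, _⟩ := hx'
  exact ⟨_, hx, ((hG j).u_inf w hw).trans (List.prefix_append _ _).isInfix⟩

lemma infix_up {i j : ℕ} (h : i ≤ j) : ∀ w ∈ (P i).W, ∃ w' ∈ (P j).W, w <:+: w' := by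
  induction h with
  | refl => exact fun w hw => ⟨w, hw, List.infix_rfl⟩
  | step _ ih =>
    intro w hw
    obtain ⟨w', hw', h1⟩ := ih w hw
    obtain ⟨w'', hw'', h2⟩ := step_infix hG (hN _) (W_ne hG _) hw'
    exact ⟨w'', hw'', h1.trans h2⟩

lemma star_down {i j : ℕ} (h : i ≤ j) : (P j).W ⊆ Star (P i).W := by
  induction h with
  | refl => exact fun w hw => star_of_mem hw
  | @step j _ ih =>
    have : (P (j + 1)).W ⊆ Star (P j).W := by
      intro x hx
      rw [(hN j).W] at hx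
      obtain ⟨v, hv, rfl, _⟩ := hx
      exact star_append (hG j).u_mem hv
    exact this.trans (star_subset ih)

end seq

/-- the language of the hierarchy -/
def lang (P : ℕ → Lvl α) : Set (List α) := {x | ∃ j, ∃ w ∈ (P j).W, x <:+: w}

lemma lang_infix {P : ℕ → Lvl α} {x y : List α} (hx : x ∈ lang P) (hy : y <:+: x) :
    y ∈ lang P := by
  obtain ⟨j, w, hw, h⟩ := hx
  exact ⟨j, w, hw, hy.trans h⟩

section seq2

variable {D : Set ℕ} {P : ℕ → Lvl α} (hG : ∀ j, Good D (P j)) (hN : ∀ j, Next (P j) (P (j + 1)))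

include hG hN

lemma lang_star {x : List α} (hx : x ∈ lang P) (k : ℕ) : ∃ z ∈ Star (P k).W, x <:+: z := by
  obtain ⟨i, w, hw, h⟩ := hx
  rcases le_total i k with h1 | h1
  · obtain ⟨w', hw', h2⟩ := infix_up hG hN h1 w hw
    exact ⟨w', star_of_mem hw', h.trans h2⟩
  · exact ⟨w, star_down hG hN h1 hw, h⟩

lemma lang_recur {w : List α} (hw : w ∈ lang P) : ∃ n, ∀ x ∈ lang P, n ≤ x.length → w <:+: x := by
  obtain ⟨j, w', hw', h⟩ := hw
  refine ⟨2 * (P (j + 1)).B + 1, fun x hx hxl => ?_⟩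
  obtain ⟨z, hz, hxz⟩ := lang_star hG hN hx (j + 1)
  obtain ⟨w2, hw2, h2⟩ := infix_full' (hG (j + 1)).core.bd hxl hz hxz
  rw [(hN j).W] at hw2
  obtain ⟨v, _, rfl, _⟩ := hw2
  exact ((h.trans ((hG j).u_inf w' hw')).trans (List.prefix_append _ _).isInfix).trans h2

end seq2

end Pool.Agent.H317R3
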