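import Mathlib
import Pool.Agent.H317R3.Levels

set_option autoImplicit false

/-! Extending a window with prescribed letters at the positions of `D`. -/

namespace Pool.Agent.H317R3

variable {α : Type}

/-- the word of `y` on `[a, a + n)` -/
def word (y : ℤ → α) (a : ℤ) (n : ℕ) : List α := List.ofFn (fun i : Fin n => y (a + i))

@[simp] lemma word_length (y : ℤ → α) (a : ℤ) (n : ℕ) : (word y a n).length = n := by
  simp [word]

lemma word_get (y : ℤ → α) (a : ℤ) (n i : ℕ) (h : i < n) :
    (word y a n)[i]? = some (y (a + i)) := by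
  simp [word, h]

lemma eq_word {y : ℤ → α} {a : ℤ} {v : List α}
    (h : ∀ i, i < v.length → v[i]? = some (y (a + i))) : v = word y a v.length := by
  apply List.ext_getElem?
  intro i
  by_cases hi : i < v.length
  · rw [h i hi, word_get _ _ _ _ hi]
  · rw [List.getElem?_eq_none (by omega), List.getElem?_eq_none (by simp; omega)]

lemma word_append (y : ℤ → α) (a : ℤ) (n k : ℕ) :
    word y a (n + k) = word y a n ++ word y (a + n) k := by
  apply List.ext_getElem?
  intro i
  by_cases hi : i < n + k
  · rw [word_get _ _ _ _ hi]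
    by_cases hn : i < n
    · rw [List.getElem?_append_left (by simpa using hn), word_get _ _ _ _ hn]
    · rw [List.getElem?_append_right (by simp; omega), word_length,
        word_get _ _ _ _ (by omega)]
      congr 2
      push_cast [Nat.cast_sub (not_lt.1 hn)]
      ring
  · rw [List.getElem?_eq_none (by simp; omega), List.getElem?_eq_none (by simp; omega)]

lemma word_infix (y : ℤ → α) {a b : ℤ} {n k : ℕ} (h1 : b ≤ a) (h2 : a + n ≤ b + k) :
    word y a n <:+: word y b k := by
  obtain ⟨p, hp⟩ : ∃ p : ℕ, a = b + p := ⟨(a - b).toNat, by omega⟩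
  obtain ⟨q, hq⟩ : ∃ q : ℕ, k = p + n + q := ⟨k - (p + n), by omega⟩
  subst hp hq
  rw [word_append, word_append]
  refine ⟨word y b p, word y (b + ((p + n : ℕ) : ℤ)) q, rfl⟩

/-- the letter `a` is allowed at position `x` -/
def Allowed (D : Set ℕ) (m : ℕ) (y s : ℤ → α) (x : ℤ) (a : α) : Prop :=
  (|x| ≤ m → a = y x) ∧ ∀ d : ℕ, d ∈ D → m < d → x = d → a = s x

lemma allowed_left {D : Set ℕ} {m : ℕ} {y s : ℤ → α} {x : ℤ} {a : α} (h : x < -m) :
    Allowed D m y s x a := by
  refine ⟨fun h1 => ?_, fun d _ _ h1 => ?_⟩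
  · rw [abs_le] at h1; omega
  · omega

lemma getElem?_append_cases {v w : List α} {i : ℕ} {a : α} (h : (v ++ w)[i]? = some a) :
    (i < v.length ∧ v[i]? = some a) ∨
      ∃ j, i = v.length + j ∧ j < w.length ∧ w[j]? = some a := by
  by_cases hi : i < v.length
  · left
    exact ⟨hi, by rwa [List.getElem?_append_left hi] at h⟩
  · right
    rw [List.getElem?_append_right (by omega)] at h
    refine ⟨i - v.length, by omega, ?_, h⟩
    by_contra hc
    rw [List.getElem?_eq_none (by omega)] at h
    simp at h

lemma extend {D : Set ℕ} {P Q : Lvl α} (hP : Good D P) (hN : Next P Q) [Inhabited α]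
    {m : ℕ} {y s : ℤ → α} {v : List α} (hv : v ∈ Star P.W) {b : ℕ} (hmb : m < b)
    (hb : ∀ d ∈ D, b ≤ d → b + P.A ≤ d) (hE : P.E ≤ b) (hbH : b + P.H ≤ P.E')
    (hlen : v.length + (P.E' - b) + P.H ≤ P.N) (hleft : (b : ℤ) - v.length ≤ -m)
    (hal : ∀ (i : ℕ) (a : α), v[i]? = some a → Allowed D m y s ((b : ℤ) - v.length + i) a) :
    ∃ w ∈ Q.W, w.length = Q.H ∧
      ∀ (i : ℕ) (a : α), w[i]? = some a → Allowed D m y s ((Q.E : ℤ) - Q.H + i) a := by
  obtain ⟨r, hr, hrl, hrs⟩ := hP.core.fill (P.E' - b) (by omega) {d | d + b ∈ D}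
    (by
      intro d hd
      have := hb _ hd (by omega)
      omega)
    (by
      intro d hd d' hd' hdd
      have := hP.core.gap _ hd _ hd' (by omega) (by omega)
      omega) (fun d => s ((d + b : ℕ) : ℤ))
  obtain ⟨l, hl, hll, -⟩ := hP.core.fill (P.N - (v.length + (P.E' - b))) (by omega) ∅
    (by simp) (by simp) (fun _ => default)
  have hW := hN.W
  have hlen' : (l ++ (v ++ r)).length = P.N := by
    rw [List.length_append, List.length_append]; omega
  refine ⟨P.u ++ (l ++ (v ++ r)), ?_, ?_, ?_⟩
  · rw [hW]
    exact ⟨_, star_append hl (star_append hv hr), rfl, by omega, by omega⟩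
  · rw [List.length_append, hlen', hN.H]
  · intro i a hi
    rw [hN.E, hN.H]
    push_cast
    rcases getElem?_append_cases hi with ⟨h1, h2⟩ | ⟨j, rfl, h1, h2⟩
    · apply allowed_left; omega
    · rcases getElem?_append_cases h2 with ⟨h3, h4⟩ | ⟨j', rfl, h3, h4⟩
      · apply allowed_left; push_cast; omega
      · rcases getElem?_append_cases h4 with ⟨h5, h6⟩ | ⟨j'', rfl, h5, h6⟩
        · have := hal j' a h6
          convert this using 1
          push_cast
          omega
        · have hx : (P.E' : ℤ) - (P.u.length + P.N) + ((P.u.length + (l.length +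
              (v.length + j'')) : ℕ) : ℤ) = ((j'' + b : ℕ) : ℤ) := by
            push_cast
            omega
          rw [hx]
          refine ⟨fun h7 => ?_, fun d hd hmd h7 => ?_⟩
          · rw [abs_le] at h7
            omega
          · have h8 : j'' + b ∈ D := by
              have : j'' + b = d := by exact_mod_cast h7
              rw [this]; exact hd
            have h9 := hrs j'' h8 (by omega)
            rw [h6] at h9
            exact Option.some.inj h9

end Pool.Agent.H317R3
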