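import Mathlib
import Pool.Agent.H317R3.Extend

set_option autoImplicit false

/-! The subshift of the hierarchy: free coordinates along `D`, minimality. -/

namespace Pool.Agent.H317R3

variable {α : Type}

section seq

variable {D : Set ℕ} {P : ℕ → Lvl α} (hG : ∀ j, Good D (P j)) (hN : ∀ j, Next (P j) (P (j + 1)))

include hG hN

lemma E_gt (j : ℕ) : (P j).m + 1 ≤ (P (j + 1)).E := by
  have h1 := (hG j).mE
  rw [(hN j).E]
  omega

lemma H_ge (j : ℕ) : (P (j + 1)).E + (P j).m ≤ (P (j + 1)).H := by
  have h1 := (hG j).N_ge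
  rw [(hN j).E, (hN j).H]
  omega

lemma claim [Inhabited α] (k : ℕ) {y s : ℤ → α}
    (hy : word y (-((P k).m : ℤ)) (2 * (P k).m + 1) ∈ lang P) (t : ℕ) :
    ∃ v ∈ (P (k + 1 + t)).W, v.length = (P (k + 1 + t)).H ∧ ∀ (i : ℕ) (a : α),
      v[i]? = some a → Allowed D (P k).m y s
        (((P (k + 1 + t)).E : ℤ) - (P (k + 1 + t)).H + i) a := by
  induction t with
  | zero =>
    obtain ⟨z, hz, hyz⟩ := lang_star hG hN hy k
    obtain ⟨s1, s2, hs, h1, h2⟩ := trim (hG k).core.bd hz hyz
    have hNk := (hG k).N_ge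
    have hmE := (hG k).mE
    have hEm := (hG k).Em
    have hl : (s1 ++ word y (-((P k).m : ℤ)) (2 * (P k).m + 1) ++ s2).length =
        s1.length + (2 * (P k).m + 1) + s2.length := by simp; omega
    apply extend (hG k) (hN k) hs (b := (P k).m + 1 + s2.length) (by omega)
    · intro d hd h3
      have := (hG k).mfree d hd (by omega)
      omega
    · omega
    · omega
    · rw [hl]; omega
    · rw [hl]; push_cast; omega
    · intro i a hi
      rw [hl]
      rcases getElem?_append_cases hi with ⟨h3, h4⟩ | ⟨j, rfl, h3, h4⟩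
      · rcases getElem?_append_cases h4 with ⟨h5, h6⟩ | ⟨j', rfl, h5, h6⟩
        · apply allowed_left
          push_cast
          omega
        · rw [word_length] at h5
          rw [word_get _ _ _ _ h5] at h6
          have h7 : (((P k).m + 1 + s2.length : ℕ) : ℤ) -
              ((s1.length + (2 * (P k).m + 1) + s2.length : ℕ) : ℤ) +
              ((s1.length + j' : ℕ) : ℤ) = -((P k).m : ℤ) + j' := by
            push_cast
            ring
          rw [h7]
          refine ⟨fun _ => (Option.some.inj h6).symm, fun d hd h8 h9 => ?_⟩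
          omega
      · have h7 : (((P k).m + 1 + s2.length : ℕ) : ℤ) -
              ((s1.length + (2 * (P k).m + 1) + s2.length : ℕ) : ℤ) +
              (((s1 ++ word y (-((P k).m : ℤ)) (2 * (P k).m + 1)).length + j : ℕ) : ℤ) =
              ((P k).m : ℤ) + 1 + j := by
            rw [List.length_append, word_length]
            push_cast
            ring
        rw [h7]
        refine ⟨fun h8 => ?_, fun d hd h8 h9 => ?_⟩
        · rw [abs_le] at h8
          omega
        · have := (hG k).mfree d hd h8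
          omega
  | succ t ih =>
    obtain ⟨v, hv, hvl, hva⟩ := ih
    have e1 := E_gt hG hN (k + t)
    have e2 := H_ge hG hN (k + t)
    have e3 := m_mono hG hN (show k ≤ k + t by omega)
    have e4 : k + 1 + t = k + t + 1 := by ring
    rw [← e4] at e1 e2
    have hNk := (hG (k + 1 + t)).N_ge
    have hmE := (hG (k + 1 + t)).mE
    have hEm := (hG (k + 1 + t)).Em
    apply extend (hG (k + 1 + t)) (hN (k + 1 + t)) (star_of_mem hv)
      (b := (P (k + 1 + t)).E) (by omega)
    · intro d hd h3
      exact (hG (k + 1 + t)).core.free d hd h3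
    · exact le_rfl
    · omega
    · omega
    · omega
    · intro i a hi
      rw [hvl]
      exact hva i a hi

end seq

/-- the subshift -/
def Y (P : ℕ → Lvl α) : Set (ℤ → α) := {y | ∀ (a : ℤ) (n : ℕ), word y a n ∈ lang P}

section top

variable [TopologicalSpace α] [DiscreteTopology α]

lemma isClosed_word (a : ℤ) (n : ℕ) (S : Set (List α)) :
    IsClosed {y : ℤ → α | word y a n ∈ S} := by
  have h : Continuous fun y : ℤ → α => fun i : Fin n => y (a + i) := by fun_prop
  exact (isClosed_discrete {f : Fin n → α | List.ofFn f ∈ S}).preimage h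

lemma isClosed_Y (P : ℕ → Lvl α) : IsClosed (Y P) := by
  have : Y P = ⋂ (a : ℤ) (n : ℕ), {y : ℤ → α | word y a n ∈ lang P} := by
    ext y
    simp [Y]
  rw [this]
  exact isClosed_iInter fun a => isClosed_iInter fun n => isClosed_word a n _

variable {D : Set ℕ} {P : ℕ → Lvl α} (hG : ∀ j, Good D (P j)) (hN : ∀ j, Next (P j) (P (j + 1)))

include hG hN

/-- FREE: every window can be continued with arbitrary letters at the positions of `D`. -/
theorem free_ext [Finite α] [Inhabited α] (k : ℕ) {y : ℤ → α} (s : ℤ → α)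
    (hy : word y (-((P k).m : ℤ)) (2 * (P k).m + 1) ∈ lang P) :
    ∃ y' ∈ Y P, (∀ x : ℤ, |x| ≤ (P k).m → y' x = y x) ∧
      ∀ d : ℕ, d ∈ D → (P k).m < d → y' d = s d := by
  let C : ℕ → Set (ℤ → α) := fun M => {y' | (∀ x : ℤ, |x| ≤ (P k).m → y' x = y x) ∧
    (∀ d : ℕ, d ∈ D → (P k).m < d → d ≤ M → y' d = s d) ∧
    ∀ (a : ℤ) (n : ℕ), -(M : ℤ) ≤ a → a + n ≤ M + 1 → word y' a n ∈ lang P}
  have hcl : ∀ M, IsClosed (C M) := by
    intro M
    have : C M = (⋂ (x : ℤ) (_ : |x| ≤ (P k).m), {y' : ℤ → α | y' x = y x}) ∩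
      ((⋂ (d : ℕ) (_ : d ∈ D) (_ : (P k).m < d) (_ : d ≤ M), {y' : ℤ → α | y' d = s d}) ∩
      ⋂ (a : ℤ) (n : ℕ) (_ : -(M : ℤ) ≤ a) (_ : a + n ≤ M + 1),
        {y' : ℤ → α | word y' a n ∈ lang P}) := by
      ext y'
      simp only [C, Set.mem_inter_iff, Set.mem_iInter]
      rfl
    rw [this]
    refine IsClosed.inter ?_ (IsClosed.inter ?_ ?_)
    · refine isClosed_iInter fun x => isClosed_iInter fun _ => ?_
      exact isClosed_eq (continuous_apply x) continuous_const
    · refine isClosed_iInter fun d => isClosed_iInter fun _ => isClosed_iInter fun _ =>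
        isClosed_iInter fun _ => ?_
      exact isClosed_eq (continuous_apply (d : ℤ)) continuous_const
    · refine isClosed_iInter fun a => isClosed_iInter fun n => isClosed_iInter fun _ =>
        isClosed_iInter fun _ => isClosed_word a n _
  have hne : ∀ M, (C M).Nonempty := by
    intro M
    obtain ⟨v, hv, hvl, hva⟩ := claim hG hN k (s := s) hy M
    have e1 := E_gt hG hN (k + M)
    have e2 := H_ge hG hN (k + M)
    have e3 := m_ge hG hN (k + M)
    have e5 := m_mono hG hN (show k ≤ k + M by omega)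
    have e4 : k + 1 + M = k + M + 1 := by ring
    rw [← e4] at e1 e2
    set E := (P (k + 1 + M)).E with hE
    set H := (P (k + 1 + M)).H with hH
    let f : ℤ → α := fun x => (v[(x - ((E : ℤ) - H)).toNat]?).getD default
    have hf : ∀ x : ℤ, (E : ℤ) - H ≤ x → x < E →
        v[(x - ((E : ℤ) - H)).toNat]? = some (f x) ∧ Allowed D (P k).m y s x (f x) := by
      intro x h1 h2
      have h3 : (x - ((E : ℤ) - H)).toNat < v.length := by omega
      have h4 : v[(x - ((E : ℤ) - H)).toNat]? = some (f x) := by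
        show _ = some ((v[(x - ((E : ℤ) - H)).toNat]?).getD default)
        rw [List.getElem?_eq_getElem h3]
        rfl
      refine ⟨h4, ?_⟩
      have h5 := hva _ _ h4
      have h6 : (E : ℤ) - H + ((x - ((E : ℤ) - H)).toNat : ℤ) = x := by omega
      rw [h6] at h5
      exact h5
    have hw : v = word f ((E : ℤ) - H) H := by
      have := eq_word (y := f) (a := (E : ℤ) - H) (v := v) (by
        intro i hi
        have h1 := (hf ((E : ℤ) - H + i) (by omega) (by omega)).1
        have h2 : ((E : ℤ) - H + i - ((E : ℤ) - H)).toNat = i := by omega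
        rwa [h2] at h1)
      rwa [hvl] at this
    refine ⟨f, ?_, ?_, ?_⟩
    · intro x hx
      have h1 := abs_le.1 hx
      exact (hf x (by omega) (by omega)).2.1 hx
    · intro d hd h1 h2
      exact (hf d (by omega) (by omega)).2.2 d hd h1 rfl
    · intro a n h1 h2
      refine ⟨k + 1 + M, v, hv, ?_⟩
      rw [hw]
      exact word_infix f (by omega) (by omega)
  have hnest : ∀ M, C (M + 1) ⊆ C M := by
    rintro M y' ⟨h1, h2, h3⟩
    refine ⟨h1, fun d hd h4 h5 => h2 d hd h4 (by omega), fun a n h4 h5 => h3 a n ?_ ?_⟩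
    · push_cast; omega
    · push_cast; omega
  obtain ⟨y', hy'⟩ := IsCompact.nonempty_iInter_of_sequence_nonempty_isCompact_isClosed C hnest
    hne (hcl 0).isCompact hcl
  rw [Set.mem_iInter] at hy'
  refine ⟨y', ?_, (hy' 0).1, ?_⟩
  · intro a n
    exact (hy' (a.natAbs + n)).2.2 a n (by omega) (by omega)
  · intro d hd h1
    exact (hy' d).2.1 d hd h1 le_rfl

theorem Y_nonempty [Finite α] [Inhabited α] : (Y P).Nonempty := by
  obtain ⟨w, hw⟩ := W_ne hG 1
  have hw' := hw
  rw [(hN 0).W] at hw'
  obtain ⟨v, hv, rfl, h1, -⟩ := hw'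
  have hNk := (hG 0).N_ge
  have hmE := (hG 0).mE
  have hl : 2 * (P 0).m + 1 ≤ ((P 0).u ++ v).length := by
    rw [List.length_append]; omega
  generalize hz : (P 0).u ++ v = z at hl hw
  let f : ℤ → α := fun x => (z[(x + (P 0).m).toNat]?).getD default
  have h2 : z.take (2 * (P 0).m + 1) = word f (-((P 0).m : ℤ)) (2 * (P 0).m + 1) := by
    have h3 : (z.take (2 * (P 0).m + 1)).length = 2 * (P 0).m + 1 := by
      rw [List.length_take]; omega
    have := eq_word (y := f) (a := -((P 0).m : ℤ)) (v := z.take (2 * (P 0).m + 1)) (by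
      intro i hi
      rw [h3] at hi
      have h4 : (-((P 0).m : ℤ) + i + (P 0).m).toNat = i := by omega
      show _ = some ((z[(-((P 0).m : ℤ) + i + (P 0).m).toNat]?).getD default)
      rw [h4, List.getElem?_take_of_lt hi, List.getElem?_eq_getElem (by omega)]
      rfl)
    rwa [h3] at this
  obtain ⟨y, hy, -⟩ := free_ext hG hN 0 (y := f) f (by
    rw [← h2]
    exact ⟨1, z, hw, (List.take_prefix _ _).isInfix⟩)
  exact ⟨y, hy⟩

omit [TopologicalSpace α] [DiscreteTopology α] in
/-- uniform recurrence -/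
theorem recur {y z : ℤ → α} (hy : y ∈ Y P) (hz : z ∈ Y P) (m : ℕ) :
    ∃ n : ℤ, ∀ x : ℤ, |x| ≤ m → y (x + n) = z x := by
  obtain ⟨K, hK⟩ := lang_recur hG hN (hz (-(m : ℤ)) (2 * m + 1))
  obtain ⟨s, t, h⟩ := hK (word y 0 K) (hy 0 K) (by simp)
  refine ⟨s.length + m, fun x hx => ?_⟩
  have hx' := abs_le.1 hx
  have hlen := congrArg List.length h
  simp only [List.length_append, word_length] at hlen
  obtain ⟨i, hi⟩ : ∃ i : ℕ, (i : ℤ) = x + m := ⟨(x + m).toNat, by omega⟩
  have h1 : (s ++ word z (-(m : ℤ)) (2 * m + 1) ++ t)[s.length + i]? = some (z x) := by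
    rw [List.getElem?_append_left (by simp; omega), List.getElem?_append_right (by omega),
      Nat.add_sub_cancel_left, word_get _ _ _ _ (by omega)]
    congr 2
    omega
  rw [h, word_get _ _ _ _ (by omega)] at h1
  have h2 := Option.some.inj h1
  rw [← h2]
  congr 1
  push_cast
  omega

end top

end Pool.Agent.H317R3
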