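import Mathlib
import Pool.Agent.H317R3.Shift

set_option autoImplicit false

/-! Product coordinates on the subshift. -/

namespace Pool.Agent.H317R3

abbrev AA := Bool × Bool

/-- `f` depends only on the window `[-m, m]` -/
def Det {β : Type} (Y : Set (ℤ → AA)) (m : ℕ) (f : (ℤ → AA) → β) : Prop :=
  ∀ y ∈ Y, ∀ y' ∈ Y, (∀ x : ℤ, |x| ≤ m → y x = y' x) → f y = f y'

lemma Det.mono {β : Type} {Y : Set (ℤ → AA)} {m m' : ℕ} {f : (ℤ → AA) → β} (h : Det Y m f)
    (hm : m ≤ m') : Det Y m' f := by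
  intro y hy y' hy' h1
  exact h y hy y' hy' fun x hx => h1 x (hx.trans (by exact_mod_cast hm))

/-- the return coordinates -/
def theta (t : ℕ → ℕ) (y : ℤ → AA) : ℕ → Bool := fun i => (y (t i)).1 == (y 0).1

/-- `m` is a window after which all the positions `t i` are free -/
def FreeAt (Y : Set (ℤ → AA)) (t : ℕ → ℕ) (m : ℕ) : Prop :=
  ∀ y ∈ Y, ∀ s : ℤ → AA, ∃ y' ∈ Y, (∀ x : ℤ, |x| ≤ m → y' x = y x) ∧
    ∀ i : ℕ, m < t i → y' (t i) = s (t i)

lemma transfer {Y : Set (ℤ → AA)} {t : ℕ → ℕ} (ht : Function.Injective t) {m : ℕ}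
    (hm : FreeAt Y t m) {w : ℤ → AA} (hw : w ∈ Y) (z : ℕ → Bool)
    (hz : ∀ j, t j ≤ m → theta t w j = z j) (b : Bool) :
    ∃ w' ∈ Y, (∀ x : ℤ, |x| ≤ m → w' x = w x) ∧ theta t w' = z ∧
      ∀ i, m < t i → (w' (t i)).2 = b := by
  classical
  let s : ℤ → AA := fun x => if h : ∃ j : ℕ, (t j : ℤ) = x then (z h.choose == (w 0).1, b)
    else (true, true)
  have hs : ∀ j, s (t j) = (z j == (w 0).1, b) := by
    intro j
    have h : ∃ j' : ℕ, (t j' : ℤ) = t j := ⟨j, rfl⟩
    have h1 : h.choose = j := ht (by exact_mod_cast h.choose_spec)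
    show (if h : ∃ j' : ℕ, (t j' : ℤ) = t j then (z h.choose == (w 0).1, b)
      else (true, true)) = _
    rw [dif_pos h, h1]
  obtain ⟨w', hw', h1, h2⟩ := hm w hw s
  have h0 : w' 0 = w 0 := h1 0 (by simp)
  refine ⟨w', hw', h1, ?_, ?_⟩
  · funext j
    by_cases hj : t j ≤ m
    · rw [← hz j hj]
      show ((w' (t j)).1 == (w' 0).1) = ((w (t j)).1 == (w 0).1)
      rw [h0, h1 (t j) (by rw [abs_le]; omega)]
    · show ((w' (t j)).1 == (w' 0).1) = z j
      rw [h2 j (by omega), hs, h0]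
      cases z j <;> cases (w 0).1 <;> rfl
  · intro i hi
    rw [h2 i hi, hs]

/-- the invariant of the construction of the coordinates -/
def Inv (Y : Set (ℤ → AA)) (t : ℕ → ℕ) (j : ℕ) (F : (ℤ → AA) → List Bool) : Prop :=
  (∃ m, Det Y m F) ∧ ∀ z : ℕ → Bool, ∀ l : List Bool, l.length = j →
    ∃ y ∈ Y, theta t y = z ∧ F y = l

lemma coord_step {Y : Set (ℤ → AA)} {t : ℕ → ℕ} (ht : StrictMono t)
    (hfree : ∀ M, ∃ m, M ≤ m ∧ FreeAt Y t m) {j : ℕ} {F : (ℤ → AA) → List Bool}
    (hF : Inv Y t j F) {V : (ℤ → AA) → Bool} (hV : ∃ m, Det Y m V) :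
    ∃ c : (ℤ → AA) → Bool, (∃ m, Det Y m c) ∧ Inv Y t (j + 1) (fun y => c y :: F y) ∧
      ∀ y ∈ Y, ∀ y' ∈ Y, theta t y = theta t y' → F y = F y' → c y = c y' → V y = V y' := by
  classical
  obtain ⟨⟨m0, hm0⟩, hsurj⟩ := hF
  obtain ⟨m1, hm1⟩ := hV
  obtain ⟨m, hm, hfr⟩ := hfree (max m0 m1)
  have hm0' := hm0.mono ((le_max_left _ _).trans hm)
  have hm1' := hm1.mono ((le_max_right _ _).trans hm)
  obtain ⟨i, hi⟩ : ∃ i, m < t i := ⟨m + 1, lt_of_lt_of_le (Nat.lt_succ_self m) (ht.id_le _)⟩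
  let Z : Bool → List Bool → (ℕ → Bool) → Prop := fun b l z =>
    ∃ y ∈ Y, theta t y = z ∧ F y = l ∧ V y = b
  let c : (ℤ → AA) → Bool := fun y =>
    if Z true (F y) (theta t y) ∧ Z false (F y) (theta t y) then V y else (y (t i)).2
  -- `Z` depends only on a window
  have hZ : ∀ b, ∀ y ∈ Y, ∀ y' ∈ Y, (∀ x : ℤ, |x| ≤ (max m (t i) : ℕ) → y x = y' x) →
      Z b (F y) (theta t y) → Z b (F y') (theta t y') := by
    rintro b y hy y' hy' hag ⟨w, hw, h1, h2, h3⟩
    have hag' : ∀ x : ℤ, |x| ≤ m → y x = y' x := fun x hx => hag x (hx.trans (by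
      exact_mod_cast le_max_left m (t i)))
    obtain ⟨w', hw', h4, h5, -⟩ := transfer ht.injective hfr hw (theta t y') (by
      intro k hk
      rw [h1]
      show ((y (t k)).1 == (y 0).1) = ((y' (t k)).1 == (y' 0).1)
      rw [hag' (t k) (by rw [abs_le]; omega), hag' 0 (by simp)]) true
    refine ⟨w', hw', h5, ?_, ?_⟩
    · rw [hm0' w' hw' w hw h4, h2]
      exact hm0' y hy y' hy' hag'
    · rw [hm1' w' hw' w hw h4, h3]
  have hcdet : Det Y (max m (t i)) c := by
    intro y hy y' hy' hag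
    have e1 : F y = F y' := hm0'.mono (le_max_left m (t i)) y hy y' hy' hag
    have e2 : V y = V y' := hm1'.mono (le_max_left m (t i)) y hy y' hy' hag
    have e3 : y (t i) = y' (t i) := hag (t i) (by
      rw [abs_le]
      have := le_max_right m (t i)
      omega)
    have e4 : (Z true (F y) (theta t y) ∧ Z false (F y) (theta t y)) ↔
        (Z true (F y') (theta t y') ∧ Z false (F y') (theta t y')) := by
      constructor
      · rintro ⟨h1, h2⟩
        exact ⟨hZ true y hy y' hy' hag h1, hZ false y hy y' hy' hag h2⟩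
      · rintro ⟨h1, h2⟩
        have hag' := fun x hx => (hag x hx).symm
        exact ⟨hZ true y' hy' y hy hag' h1, hZ false y' hy' y hy hag' h2⟩
    show (if Z true (F y) (theta t y) ∧ Z false (F y) (theta t y) then V y else (y (t i)).2) =
      (if Z true (F y') (theta t y') ∧ Z false (F y') (theta t y') then V y' else (y' (t i)).2)
    rw [e2, e3]
    exact if_congr e4 rfl rfl
  refine ⟨c, ⟨_, hcdet⟩, ⟨⟨max m (t i), ?_⟩, ?_⟩, ?_⟩
  · intro y hy y' hy' hag
    show c y :: F y = c y' :: F y'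
    rw [hcdet y hy y' hy' hag, hm0'.mono (le_max_left m (t i)) y hy y' hy' hag]
  · intro z l' hl'
    obtain ⟨b, l, rfl⟩ : ∃ b l, l' = b :: l := by
      cases l' with
      | nil => simp at hl'
      | cons b l => exact ⟨b, l, rfl⟩
    have hl : l.length = j := by simpa using hl'
    by_cases hz : Z true l z ∧ Z false l z
    · have : Z b l z := by cases b; exacts [hz.2, hz.1]
      obtain ⟨y, hy, h1, h2, h3⟩ := this
      refine ⟨y, hy, h1, ?_⟩
      have h4 : c y = V y := by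
        show (if Z true (F y) (theta t y) ∧ Z false (F y) (theta t y) then V y
          else (y (t i)).2) = _
        rw [h1, h2, if_pos hz]
      show c y :: F y = b :: l
      rw [h4, h2, h3]
    · obtain ⟨y0, hy0, h1, h2⟩ := hsurj z l hl
      obtain ⟨y, hy, h3, h4, h5⟩ := transfer ht.injective hfr hy0 z (by
        intro k _
        rw [h1]) b
      refine ⟨y, hy, h4, ?_⟩
      have h6 : F y = l := by rw [hm0' y hy y0 hy0 h3, h2]
      have h7 : c y = (y (t i)).2 := by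
        show (if Z true (F y) (theta t y) ∧ Z false (F y) (theta t y) then V y
          else (y (t i)).2) = _
        rw [h4, h6, if_neg hz]
      show c y :: F y = b :: l
      rw [h7, h6, h5 i hi]
  · intro y hy y' hy' h1 h2 h3
    by_cases hz : Z true (F y) (theta t y) ∧ Z false (F y) (theta t y)
    · have h4 : c y = V y := by
        show (if Z true (F y) (theta t y) ∧ Z false (F y) (theta t y) then V y
          else (y (t i)).2) = _
        rw [if_pos hz]
      have h5 : c y' = V y' := by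
        show (if Z true (F y') (theta t y') ∧ Z false (F y') (theta t y') then V y'
          else (y' (t i)).2) = _
        rw [← h1, ← h2, if_pos hz]
      rw [← h4, ← h5, h3]
    · by_contra hne
      apply hz
      rcases hb : V y with _ | _
      · have hb' : V y' = true := by
          rw [hb] at hne
          exact Bool.eq_true_of_not_eq_false (fun h => hne h.symm)
        exact ⟨⟨y', hy', h1.symm, h2.symm, hb'⟩, ⟨y, hy, rfl, rfl, hb⟩⟩
      · have hb' : V y' = false := by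
          rw [hb] at hne
          exact Bool.eq_false_of_not_eq_true (fun h => hne h.symm)
        exact ⟨⟨y, hy, rfl, rfl, hb⟩, ⟨y', hy', h1.symm, h2.symm, hb'⟩⟩

/-- the sequence of coordinates -/
lemma coord_seq {Y : Set (ℤ → AA)} {t : ℕ → ℕ} (ht : StrictMono t)
    (hfree : ∀ M, ∃ m, M ≤ m ∧ FreeAt Y t m) (h0 : ∀ z : ℕ → Bool, ∃ y ∈ Y, theta t y = z)
    (V : ℕ → (ℤ → AA) → Bool) (hV : ∀ n, ∃ m, Det Y m (V n)) :
    ∃ (c : ℕ → (ℤ → AA) → Bool) (F : ℕ → (ℤ → AA) → List Bool), (∀ n, ∃ m, Det Y m (c n)) ∧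
      (∀ n, Inv Y t n (F n)) ∧ (F 0 = fun _ => []) ∧
      (∀ n, F (n + 1) = fun y => c n y :: F n y) ∧
      ∀ n, ∀ y ∈ Y, ∀ y' ∈ Y, theta t y = theta t y' → F n y = F n y' → c n y = c n y' →
        V n y = V n y' := by
  classical
  choose g hg1 hg2 hg3 using fun (n : ℕ) (F : {F // Inv Y t n F}) =>
    coord_step ht hfree F.2 (hV n)
  have hI0 : Inv Y t 0 (fun _ => []) := by
    refine ⟨⟨0, fun _ _ _ _ _ => rfl⟩, ?_⟩
    intro z l hl
    obtain ⟨y, hy, h⟩ := h0 z
    exact ⟨y, hy, h, (List.length_eq_zero_iff.1 hl).symm⟩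
  let Q : ∀ n : ℕ, {F // Inv Y t n F} := fun n =>
    Nat.rec ⟨fun _ => [], hI0⟩ (fun n F => ⟨fun y => g n F y :: F.1 y, hg2 n F⟩) n
  refine ⟨fun n => g n (Q n), fun n => (Q n).1, fun n => hg1 n (Q n), fun n => (Q n).2,
    rfl, fun n => rfl, fun n => hg3 n (Q n)⟩

end Pool.Agent.H317R3
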