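import Mathlib
import Pool.Agent.H317R3.Coord

set_option autoImplicit false

/-! The minimal homeomorphism with free return coordinates. -/

namespace Pool.Agent.H317R3

open Filter Topology

lemma isOpen_window (y : ℤ → AA) (m : ℕ) : IsOpen {y' : ℤ → AA | ∀ x : ℤ, |x| ≤ m → y' x = y x} := by
  have : {y' : ℤ → AA | ∀ x : ℤ, |x| ≤ m → y' x = y x} =
      ⋂ x ∈ Set.Icc (-(m : ℤ)) m, {y' : ℤ → AA | y' x = y x} := by
    ext y'
    simp only [Set.mem_iInter, Set.mem_Icc, abs_le]
    rfl
  rw [this]
  refine (Set.finite_Icc _ _).isOpen_biInter fun x _ => ?_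
  have h : Continuous fun y' : ℤ → AA => y' x := continuous_apply x
  exact (isOpen_discrete ({y x} : Set AA)).preimage h

lemma window_basis {U : Set (ℤ → AA)} (hU : IsOpen U) {y : ℤ → AA} (hy : y ∈ U) :
    ∃ m : ℕ, {y' : ℤ → AA | ∀ x : ℤ, |x| ≤ m → y' x = y x} ⊆ U := by
  obtain ⟨I, u, hu, hI⟩ := isOpen_pi_iff.1 hU y hy
  refine ⟨I.sup Int.natAbs, fun y' hy' => hI fun x hx => ?_⟩
  have h1 : x.natAbs ≤ I.sup Int.natAbs := Finset.le_sup (f := Int.natAbs) hx
  have h2 : y' x = y x := hy' x (by rw [Int.abs_eq_natAbs]; exact_mod_cast h1)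
  rw [h2]
  exact (hu x hx).2

lemma Det.continuous {β : Type} [TopologicalSpace β] {Y : Set (ℤ → AA)} {m : ℕ}
    {f : (ℤ → AA) → β} (h : Det Y m f) : Continuous fun y : Y => f y := by
  apply IsLocallyConstant.continuous
  rw [IsLocallyConstant.iff_exists_open]
  intro y
  refine ⟨{y' : Y | ∀ x : ℤ, |x| ≤ m → y'.1 x = y.1 x},
    (isOpen_window y.1 m).preimage continuous_subtype_val, fun x _ => rfl, ?_⟩
  intro y' hy'
  exact h y' y'.2 y y.2 hy'

/-- the space of the systems: a Cantor set -/
abbrev XX := (ℕ → Bool) × (ℕ → Bool)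

/-- the reversed initial word of `a` -/
def revWord (a : ℕ → Bool) : ℕ → List Bool
  | 0 => []
  | n + 1 => a n :: revWord a n

lemma revWord_length (a : ℕ → Bool) (n : ℕ) : (revWord a n).length = n := by
  induction n with
  | zero => rfl
  | succ n ih => simp [revWord, ih]

theorem exists_homeo {Y : Set (ℤ → AA)} (hY : IsClosed Y) {t : ℕ → ℕ} (ht : StrictMono t)
    (hfree : ∀ M, ∃ m, M ≤ m ∧ FreeAt Y t m) (h0 : ∀ z : ℕ → Bool, ∃ y ∈ Y, theta t y = z) :
    ∃ Φ : Y ≃ₜ XX, ∀ y, (Φ y).1 = theta t y := by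
  classical
  obtain ⟨e, he⟩ := exists_surjective_nat (ℤ × Bool)
  let V : ℕ → (ℤ → AA) → Bool := fun n y => if (e n).2 then (y (e n).1).1 else (y (e n).1).2
  have hV : ∀ n, ∃ m, Det Y m (V n) := by
    intro n
    refine ⟨(e n).1.natAbs, fun y _ y' _ h => ?_⟩
    have h1 : y (e n).1 = y' (e n).1 := h _ (by rw [Int.abs_eq_natAbs])
    show (if (e n).2 then (y (e n).1).1 else (y (e n).1).2) =
      (if (e n).2 then (y' (e n).1).1 else (y' (e n).1).2)
    rw [h1]
  obtain ⟨c, F, hc, hF, hF0, hcF, hdet⟩ := coord_seq ht hfree h0 V hV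
  have : CompactSpace Y := isCompact_iff_compactSpace.1 hY.isCompact
  have hθ : Continuous fun y : Y => theta t (y : ℤ → AA) := by
    apply continuous_pi
    intro i
    have h1 : Continuous fun y : Y => ((y.1 (t i)).1, (y.1 0).1) :=
      (continuous_fst.comp ((continuous_apply (t i : ℤ)).comp continuous_subtype_val)).prodMk
        (continuous_fst.comp ((continuous_apply (0 : ℤ)).comp continuous_subtype_val))
    exact (continuous_of_discreteTopology (f := fun p : Bool × Bool => p.1 == p.2)).comp h1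
  let φ : Y → XX := fun y => (theta t y, fun n => c n y)
  have hφ : Continuous φ := by
    refine hθ.prodMk (continuous_pi fun n => ?_)
    obtain ⟨m, hm⟩ := hc n
    exact hm.continuous
  have hinj : Function.Injective φ := by
    intro y y' h
    have h1 : theta t (y : ℤ → AA) = theta t (y' : ℤ → AA) := congrArg Prod.fst h
    have h2 : ∀ n, c n y = c n y' := fun n => congrFun (congrArg Prod.snd h) n
    have h3 : ∀ n, F n y = F n y' := by
      intro n
      induction n with
      | zero => rw [hF0]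
      | succ n ih =>
        rw [hcF n]
        show c n y :: F n y = c n y' :: F n y'
        rw [h2, ih]
    have h4 : ∀ n, V n y = V n y' := fun n => hdet n y y.2 y' y'.2 h1 (h3 n) (h2 n)
    apply Subtype.ext
    funext x
    apply Prod.ext
    · obtain ⟨n, hn⟩ := he (x, true)
      have := h4 n
      simpa [V, hn] using this
    · obtain ⟨n, hn⟩ := he (x, false)
      have := h4 n
      simpa [V, hn] using this
  have hsurj : Function.Surjective φ := by
    rintro ⟨z, a⟩
    let K : ℕ → Set Y := fun n => {y | theta t (y : ℤ → AA) = z ∧ F n y = revWord a n}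
    have hKcl : ∀ n, IsClosed (K n) := by
      intro n
      obtain ⟨m, hm⟩ := (hF n).1
      let g : (ℤ → AA) → Bool := fun y => decide (F n y = revWord a n)
      have h1 : Det Y m g := by
        intro y hy y' hy' hag
        have := hm y hy y' hy' hag
        simp only [g, this]
      have h2 : K n = {y : Y | theta t (y : ℤ → AA) = z} ∩
          (fun y : Y => g y.1) ⁻¹' {true} := by
        ext y
        simp [K, g]
      rw [h2]
      exact (isClosed_eq hθ continuous_const).inter ((isClosed_discrete _).preimage h1.continuous)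
    have hKne : ∀ n, (K n).Nonempty := by
      intro n
      obtain ⟨y, hy, h1, h2⟩ := (hF n).2 z (revWord a n) (revWord_length a n)
      exact ⟨⟨y, hy⟩, h1, h2⟩
    have hKnest : ∀ n, K (n + 1) ⊆ K n := by
      rintro n y ⟨h1, h2⟩
      refine ⟨h1, ?_⟩
      rw [hcF n] at h2
      exact (List.cons.inj h2).2
    obtain ⟨y, hy⟩ := IsCompact.nonempty_iInter_of_sequence_nonempty_isCompact_isClosed K hKnest
      hKne (hKcl 0).isCompact hKcl
    rw [Set.mem_iInter] at hy
    refine ⟨y, Prod.ext (hy 0).1 ?_⟩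
    funext n
    have h2 := (hy (n + 1)).2
    rw [hcF n] at h2
    exact (List.cons.inj h2).1
  let Φ := hφ.homeoOfEquivCompactToT2 (f := Equiv.ofBijective φ ⟨hinj, hsurj⟩)
  exact ⟨Φ, fun y => rfl⟩

end Pool.Agent.H317R3
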