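import Mathlib
import Pool.Agent.H317R3.Sys

set_option autoImplicit false

/-! Minimal homeomorphisms of the Cantor set whose returns along a sparse sequence are free. -/

namespace Pool.Agent.H317R3

open Filter Topology

lemma shift_mem {P : ℕ → Lvl AA} {y : ℤ → AA} (hy : y ∈ Y P) (c : ℤ) :
    (fun x => y (x + c)) ∈ Y P := by
  intro a n
  have : word (fun x => y (x + c)) a n = word y (a + c) n := by
    unfold word
    congr 1
    funext i
    show y (a + i + c) = y (a + c + i)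
    rw [show a + (i : ℤ) + c = a + c + i by ring]
  rw [this]
  exact hy _ _

/-- the shift on the subshift -/
def shiftY (P : ℕ → Lvl AA) : Y P ≃ₜ Y P where
  toFun y := ⟨fun x => y.1 (x + 1), shift_mem y.2 1⟩
  invFun y := ⟨fun x => y.1 (x + -1), shift_mem y.2 (-1)⟩
  left_inv y := by
    apply Subtype.ext
    funext x
    simp
  right_inv y := by
    apply Subtype.ext
    funext x
    simp
  continuous_toFun := by
    refine Continuous.subtype_mk (continuous_pi fun x => ?_) _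
    have h : Continuous fun y : ℤ → AA => y (x + 1) := continuous_apply _
    exact h.comp continuous_subtype_val
  continuous_invFun := by
    refine Continuous.subtype_mk (continuous_pi fun x => ?_) _
    have h : Continuous fun y : ℤ → AA => y (x + -1) := continuous_apply _
    exact h.comp continuous_subtype_val

lemma shiftY_zpow (P : ℕ → Lvl AA) (n : ℤ) : ∀ (y : Y P) (x : ℤ),
    ((shiftY P ^ n) y).1 x = y.1 (x + n) := by
  induction n using Int.induction_on with
  | zero => intro y x; simp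
  | succ n ih =>
    intro y x
    rw [zpow_add_one]
    show ((shiftY P ^ (n : ℤ)) (shiftY P y)).1 x = _
    rw [ih]
    show y.1 (x + n + 1) = _
    rw [show x + (n : ℤ) + 1 = x + ((n : ℤ) + 1) by ring]
  | pred n ih =>
    intro y x
    rw [zpow_sub_one]
    show ((shiftY P ^ (-(n : ℤ))) ((shiftY P).symm y)).1 x = _
    rw [ih]
    show y.1 (x + -n + -1) = _
    rw [show x + -(n : ℤ) + -1 = x + (-(n : ℤ) - 1) by ring]

lemma homeo_conj_zpow {A B : Type} [TopologicalSpace A] [TopologicalSpace B] (Φ : A ≃ₜ B)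
    (σ : A ≃ₜ A) (n : ℤ) : ∀ x : B,
    (((Φ.symm.trans σ).trans Φ) ^ n) x = Φ ((σ ^ n) (Φ.symm x)) := by
  induction n using Int.induction_on with
  | zero => intro x; simp
  | succ n ih =>
    intro x
    rw [zpow_add_one, zpow_add_one]
    show (((Φ.symm.trans σ).trans Φ) ^ (n : ℤ)) (Φ (σ (Φ.symm x))) =
      Φ ((σ ^ (n : ℤ)) (σ (Φ.symm x)))
    rw [ih, Φ.symm_apply_apply]
  | pred n ih =>
    intro x
    rw [zpow_sub_one, zpow_sub_one]
    show (((Φ.symm.trans σ).trans Φ) ^ (-(n : ℤ))) (Φ (σ.symm (Φ.symm x))) =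
      Φ ((σ ^ (-(n : ℤ))) (σ.symm (Φ.symm x)))
    rw [ih, Φ.symm_apply_apply]

theorem free_system (t : ℕ → ℕ) (ht : StrictMono t) (hgap : GapsInf (Set.range t)) :
    ∃ N1, ∀ M, N1 ≤ M → ∃ (T : XX ≃ₜ XX) (f : XX → Bool), Continuous f ∧
      (∀ x, DenseRange fun n : ℤ => (T ^ n) x) ∧
      ∀ (x : XX) (i : ℕ), f ((T ^ (t (M + i) : ℤ)) x) = f x ↔ x.1 i = true := by
  obtain ⟨P, hG, hN⟩ := exists_seq AA hgap
  refine ⟨(P 0).m + 1, fun M hM => ?_⟩
  let t' : ℕ → ℕ := fun i => t (M + i)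
  have ht' : StrictMono t' := fun i j hij => ht (by omega)
  have hfr : ∀ k, FreeAt (Y P) t' (P k).m := by
    intro k y hy s
    obtain ⟨y', hy', h1, h2⟩ := free_ext hG hN k s (hy _ _)
    exact ⟨y', hy', h1, fun i hi => h2 (t' i) ⟨M + i, rfl⟩ hi⟩
  have hfree : ∀ M', ∃ m, M' ≤ m ∧ FreeAt (Y P) t' m := fun M' =>
    ⟨(P M').m, m_ge hG hN M', hfr M'⟩
  have h0 : ∀ z : ℕ → Bool, ∃ y ∈ Y P, theta t' y = z := by
    intro z
    obtain ⟨y0, hy0⟩ := Y_nonempty hG hN
    obtain ⟨y, hy, -, h1, -⟩ := transfer ht'.injective (hfr 0) hy0 z (by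
      intro j hj
      exfalso
      have : M + j ≤ t (M + j) := ht.id_le _
      have hj' : t (M + j) ≤ (P 0).m := hj
      omega) true
    exact ⟨y, hy, h1⟩
  obtain ⟨Φ, hΦ⟩ := exists_homeo (isClosed_Y P) ht' hfree h0
  refine ⟨(Φ.symm.trans (shiftY P)).trans Φ, fun x => ((Φ.symm x).1 0).1, ?_, ?_, ?_⟩
  · exact continuous_fst.comp ((continuous_apply (0 : ℤ)).comp
      (continuous_subtype_val.comp Φ.symm.continuous))
  · intro x
    have h1 : (fun n : ℤ => (((Φ.symm.trans (shiftY P)).trans Φ) ^ n) x) =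
        Φ ∘ fun n : ℤ => (shiftY P ^ n) (Φ.symm x) := by
      funext n
      exact homeo_conj_zpow Φ _ n x
    rw [h1]
    refine Φ.surjective.denseRange.comp ?_ Φ.continuous
    intro z
    rw [mem_closure_iff_nhds]
    intro U hU
    obtain ⟨O, hO, hOo, hzO⟩ := mem_nhds_iff.1 hU
    obtain ⟨O', hO', rfl⟩ := isOpen_induced_iff.1 hOo
    obtain ⟨m, hm⟩ := window_basis hO' hzO
    obtain ⟨n, hn⟩ := recur hG hN (Φ.symm x).2 z.2 m
    refine ⟨(shiftY P ^ n) (Φ.symm x), hO ?_, n, rfl⟩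
    apply hm
    intro a ha
    rw [shiftY_zpow]
    exact hn a ha
  · intro x i
    rw [homeo_conj_zpow]
    simp only [Φ.symm_apply_apply]
    rw [shiftY_zpow, zero_add]
    have h1 : x.1 i = theta t' (Φ.symm x).1 i := by
      rw [← hΦ, Φ.apply_symm_apply]
    rw [h1]
    show (((Φ.symm x).1 ((t (M + i) : ℕ) : ℤ)).1 = ((Φ.symm x).1 0).1) ↔
      (((Φ.symm x).1 ((t (M + i) : ℕ) : ℤ)).1 == ((Φ.symm x).1 0).1) = true
    rw [beq_iff_eq]

end Pool.Agent.H317R3
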