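import Mathlib
import Pool.Agent.H317R3.Levels

set_option autoImplicit false

/-! Gaps between the values of an integer polynomial of degree at least two. -/

namespace Pool.Agent.H317R3

open Filter Topology Polynomial

lemma poly_gap (P : ℤ[X]) (hd : 2 ≤ P.natDegree) (hlc : 0 < P.leadingCoeff) (A : ℤ) :
    ∃ N : ℕ, ∀ n : ℕ, N ≤ n → P.eval (n : ℤ) + A < P.eval ((n + 1 : ℕ) : ℤ) ∧
      A < P.eval (n : ℤ) := by
  have hinj : Function.Injective (Int.castRingHom ℝ) := Int.cast_injective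
  set Q : ℝ[X] := P.map (Int.castRingHom ℝ) with hQ
  have hQd : Q.natDegree = P.natDegree := natDegree_map_eq_of_injective hinj P
  have hQl : 0 < Q.leadingCoeff := by
    rw [hQ, leadingCoeff_map_of_injective hinj]
    simpa using hlc
  have hev : ∀ n : ℕ, Q.eval (n : ℝ) = ((P.eval (n : ℤ) : ℤ) : ℝ) := by
    intro n
    rw [hQ, eval_natCast_map]
    simp
  have h1 : Tendsto (fun x : ℝ => Q.eval x) atTop atTop := by
    apply Q.tendsto_atTop_of_leadingCoeff_nonneg _ hQl.le
    rw [← natDegree_pos_iff_degree_pos]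
    omega
  have hdd : Q.derivative.degree = ((Q.natDegree - 1 : ℕ) : WithBot ℕ) :=
    degree_derivative (by omega)
  have hdn : Q.derivative.natDegree = Q.natDegree - 1 := natDegree_eq_of_degree_eq_some hdd
  have h2 : Tendsto (fun x : ℝ => Q.derivative.eval x) atTop atTop := by
    apply Q.derivative.tendsto_atTop_of_leadingCoeff_nonneg
    · rw [hdd]
      exact_mod_cast (show 0 < Q.natDegree - 1 by omega)
    · rw [leadingCoeff, hdn, coeff_derivative]
      have e : Q.natDegree - 1 + 1 = Q.natDegree := by omega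
      rw [e]
      exact mul_nonneg hQl.le (by positivity)
  obtain ⟨x1, hx1⟩ := (h1.eventually_gt_atTop (A : ℝ)).exists_forall_of_atTop
  obtain ⟨x2, hx2⟩ := (h2.eventually_gt_atTop (A : ℝ)).exists_forall_of_atTop
  refine ⟨⌈max x1 x2⌉₊, fun n hn => ?_⟩
  have hn' : max x1 x2 ≤ (n : ℝ) := (Nat.le_ceil _).trans (by exact_mod_cast hn)
  constructor
  · obtain ⟨c, hc, hc'⟩ := exists_deriv_eq_slope (fun x => Q.eval x)
      (show (n : ℝ) < (n : ℝ) + 1 by linarith) Q.continuous.continuousOn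
      Q.differentiable.differentiableOn
    have h3 := hx2 c ((le_max_right _ _).trans (hn'.trans hc.1.le))
    rw [Polynomial.deriv] at hc'
    have h4 : Q.eval ((n : ℝ) + 1) = ((P.eval ((n + 1 : ℕ) : ℤ) : ℤ) : ℝ) := by
      rw [← hev]
      push_cast
      rfl
    rw [hc'] at h3
    simp only [add_sub_cancel_left, div_one] at h3
    rw [h4, hev] at h3
    have h5 : (A : ℝ) < ((P.eval ((n + 1 : ℕ) : ℤ) - P.eval (n : ℤ) : ℤ) : ℝ) := by
      rw [Int.cast_sub]; exact h3
    have h6 : A < P.eval ((n + 1 : ℕ) : ℤ) - P.eval (n : ℤ) := by exact_mod_cast h5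
    linarith
  · have h3 := hx1 n ((le_max_left _ _).trans hn')
    rw [hev] at h3
    exact_mod_cast h3

/-- the values of a polynomial as a sparse sequence of natural numbers -/
lemma poly_seq (P : ℤ[X]) (hd : 2 ≤ P.natDegree) (hlc : 0 < P.leadingCoeff) :
    ∃ (t : ℕ → ℕ) (N : ℕ), StrictMono t ∧ GapsInf (Set.range t) ∧
      ∀ i : ℕ, ((t i : ℕ) : ℤ) = P.eval ((N + i : ℕ) : ℤ) := by
  obtain ⟨N, hN⟩ := poly_gap P hd hlc 0
  let t : ℕ → ℕ := fun i => (P.eval ((N + i : ℕ) : ℤ)).toNat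
  have ht : ∀ i : ℕ, ((t i : ℕ) : ℤ) = P.eval ((N + i : ℕ) : ℤ) := by
    intro i
    exact Int.toNat_of_nonneg (hN (N + i) (by omega)).2.le
  have hmono : StrictMono t := by
    apply strictMono_nat_of_lt_succ
    intro i
    have h := (hN (N + i) (by omega)).1
    have h1 := ht i
    have h2 := ht (i + 1)
    rw [show N + (i + 1) = N + i + 1 by ring] at h2
    omega
  refine ⟨t, N, hmono, ?_, ht⟩
  intro A
  obtain ⟨K, hK⟩ := poly_gap P hd hlc A
  refine ⟨t K, ?_⟩
  rintro _ ⟨i, rfl⟩ _ ⟨j, rfl⟩ h1 h2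
  have hi : K ≤ i := hmono.le_iff_le.1 h1
  have hij : i + 1 ≤ j := hmono.lt_iff_lt.1 h2
  have h3 : t (i + 1) ≤ t j := hmono.monotone hij
  have h := (hK (N + i) (by omega)).1
  have h4 := ht i
  have h5 := ht (i + 1)
  rw [show N + (i + 1) = N + i + 1 by ring] at h5
  omega

end Pool.Agent.H317R3
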